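import Pool.Agent.H845Z.St.FlexBridge

/-!
Amalgams of HS-stable groups over a finite subgroup that survives in finite quotients are flexibly
HS-stable.
-/

set_option autoImplicit false

open Pool.Agent.H845Z.StDefs

theorem Pool.Agent.Results.MP_0ea811_al.BFlexHS.result :
    ∀ (H G₁ G₂ : Type) [Group H] [Group G₁] [Group G₂] [Finite H] (i₁ : H →* G₁) (i₂ : H →* G₂),
      SurvivesInFiniteQuotient i₁ → SurvivesInFiniteQuotient i₂ → HSStable G₁ → HSStable G₂ →
      ∀ (S : Type) [Finite S] (π : FreeGroup S →* Amalgam i₁ i₂), Function.Surjective π →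
        FlexHS π :=
  fun _ _ _ _ _ _ _ i₁ i₂ n₁ n₂ s₁ s₂ _ _ π hπ =>
    Pool.Agent.H845Z.St.amalgam_flexHS i₁ i₂ n₁ n₂ s₁ s₂ π hπ
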